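import Pool.Agent.Mg.F5cfbf6.Ga37f64

open Pool.Agent.MP_7791e4_an

theorem Pool.Agent.Results.MP_7791e4_an.ClosedCurves.result (a b : ℝ) (hb : 0 < b) (hab : b ≤ a)
    (p : ℂ) (hp : p ∈ frontier (ell a b)) :
    (∃ γ : Path p p, Admissible a b γ) ∧
    ((∃ γ : Path p p, Shortest a b γ) ↔
      (a ^ 3 * b < 2 * b ^ 4 + 2 * (a ^ 2 - b ^ 2) * p.im ^ 2 ∨ (p.im = 0 ∧ a ^ 3 = 2 * b ^ 3))) :=
  ⟨(q2_main hb hab (mem_fr.1 hp)).1, (q2_main hb hab (mem_fr.1 hp)).2.1⟩
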