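import Pool.Agent.Mg.F5cfbf6.G45b6f2

open Pool.Agent.MP_7791e4_an Set Real

theorem Pool.Agent.Results.MP_7791e4_an.OpenArcs.result (a b : ℝ) (hb : 0 < b) (hab : b ≤ a)
    (p q : ℂ) (hp : p ∈ frontier (ell a b)) (hq : q ∈ frontier (ell a b)) (hne : p ≠ q) :
    (∃ α β : ℝ, α < β ∧ β ≤ α + π ∧ ({p, q} : Set ℂ) = {pt a b α, pt a b β}) ∧
    ∀ α β : ℝ, α < β → β ≤ α + π → ({p, q} : Set ℂ) = {pt a b α, pt a b β} →
      (β = α + π → (∃ γ : Path p q, Shortest a b γ) ∧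
        ∀ γ : Path p q, Shortest a b γ ↔ Function.Injective γ ∧ range γ = segment ℝ p q) ∧
      (β < α + π →
        ((∃ γ : Path p q, Shortest a b γ) ↔
          ∃ (s t : ℝ) (c : ℂ) (r θ₁ θ₂ : ℝ), Solves a b α β s t c r θ₁ θ₂) ∧
        ∀ (s t : ℝ) (c : ℂ) (r θ₁ θ₂ : ℝ), Solves a b α β s t c r θ₁ θ₂ → ∀ γ : Path p q,
          Shortest a b γ ↔ Function.Injective γ ∧ range γ = chain a b α β s t c r θ₁ θ₂) := by
  have ha : 0 < a := by linarith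
  refine ⟨exists_param ha hb (mem_fr.1 hp) (mem_fr.1 hq) hne, fun α β h1 _ e => ?_⟩
  rcases pair_eq_pair_iff.1 e with ⟨rfl, rfl⟩ | ⟨rfl, rfl⟩
  · refine ⟨fun h => ?_, fun h => ?_⟩
    · obtain ⟨⟨γ, hγ⟩, d⟩ := anti_main hb hab α (p := pt a b β) (by rw [h]) rfl
      exact ⟨⟨_, short_symm hγ⟩, fun γ => by rw [flip_desc d, segment_symm]⟩
    · obtain ⟨m1, m2⟩ := q1_main hb hab h1 h
      exact ⟨Iff.trans ⟨fun ⟨_, h⟩ => ⟨_, short_symm h⟩, fun ⟨_, h⟩ => ⟨_, short_symm h⟩⟩ m1,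
        fun s t c r x y h => flip_desc (m2 s t c r x y h)⟩
  · exact ⟨fun h => anti_main hb hab α (by rw [h]) rfl, fun h => q1_main hb hab h1 h⟩
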